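import Pool.Agent.Helper82.TY.LayList
import Pool.Agent.Helper25.EN.Red
import Pool.Agent.Helper60.TB.F4A

/-! MP_8ee768_co, project TH-Y', the static lists x4fA (10571 lanes) are the layers of the entries -/

set_option autoImplicit false
set_option maxRecDepth 100000

namespace Pool.Agent.Gen.TY.LZ.a4f

open Pool.Agent.Helper82.TY Pool.Agent.Helper25.EN Pool.Agent.Helper25.TY Pool.Agent.Helper60.TB
open Pool.Agent.Helper67.TY (repA repB)
open Pool.Agent.Helper91.TY (chkDL)

def p0 : segC repA (allE cA4) x4fA 10571 0 24 = true := by decide +kernel
def p1 : segC repA (allE cA4) x4fA 10571 24 24 = true := by decide +kernel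
def p2 : segC repA (allE cA4) x4fA 10571 48 24 = true := by decide +kernel
def p3 : segC repA (allE cA4) x4fA 10571 72 24 = true := by decide +kernel
def p4 : segC repA (allE cA4) x4fA 10571 96 24 = true := by decide +kernel
def p5 : segC repA (allE cA4) x4fA 10571 120 24 = true := by decide +kernel
def p6 : segC repA (allE cA4) x4fA 10571 144 24 = true := by decide +kernel
def pad : chkDL 32768 x4fA = true := by decide +kernel
def len : Nat.ble (allE cA4).length 10571 = true := by decide +kernel

theorem ok : SegAll repA (allE cA4) x4fA 10571 := by
  refine segAll_of (K := 24) (q := 7) (by norm_num) (by norm_num) (Nat.le_of_ble_eq_true len) pad ?_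
  intro k hk
  interval_cases k
  · exact p0
  · exact p1
  · exact p2
  · exact p3
  · exact p4
  · exact p5
  · exact p6

end Pool.Agent.Gen.TY.LZ.a4f
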