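import Pool.Agent.Helper82.TY.LayList
import Pool.Agent.Helper25.EN.Red
import Pool.Agent.Helper60.TB.L2

/-! MP_8ee768_co, project TH-Y', the static lists lx2B (232 lanes) are the layers of the entries -/

set_option autoImplicit false
set_option maxRecDepth 100000

namespace Pool.Agent.Gen.TY.LZ.b2

open Pool.Agent.Helper82.TY Pool.Agent.Helper25.EN Pool.Agent.Helper60.TB
open Pool.Agent.Helper67.TY (repA repB)
open Pool.Agent.Helper91.TY (chkDL)

def p0 : segC repB (redB0 ++ redB2) lx2B 232 0 24 = true := by decide +kernel
def pad : chkDL 32768 lx2B = true := by decide +kernel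
def len : Nat.ble (redB0 ++ redB2).length 232 = true := by decide +kernel

theorem ok : SegAll repB (redB0 ++ redB2) lx2B 232 := by
  refine segAll_of (K := 24) (q := 1) (by norm_num) (by norm_num) (Nat.le_of_ble_eq_true len) pad ?_
  intro k hk
  interval_cases k
  · exact p0

end Pool.Agent.Gen.TY.LZ.b2
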